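import Mathlib

set_option autoImplicit false

namespace Pool.Agent.Y47.PN

theorem card3 {N : ℕ} (u : Fin 3 → Fin N) (c : Fin N) :
    (Finset.univ.filter fun i => u i = c).card =
      (if u 0 = c then 1 else 0) + (if u 1 = c then 1 else 0) + (if u 2 = c then 1 else 0) := by
  rw [Finset.card_filter, Fin.sum_univ_three]

/-- the evenness condition for the label `c` -/
def Ev {N : ℕ} (u v : Fin 3 → Fin N) (c : Fin N) : Prop :=
  Even ((Finset.univ.filter fun i => u i = c).card + (Finset.univ.filter fun i => v i = c).card)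

theorem ev_imp {N : ℕ} (u v : Fin 3 → Fin N) (c : Fin N) (n0 : ¬ u 0 = v 0) (n1 : ¬ u 1 = v 1)
    (n2 : ¬ u 2 = v 2) (h : Ev u v c) :
    ((u 0 = c ∨ v 0 = c) → ((u 1 = c ∨ v 1 = c) ↔ ¬ (u 2 = c ∨ v 2 = c))) ∧
    ((u 1 = c ∨ v 1 = c) → ((u 0 = c ∨ v 0 = c) ↔ ¬ (u 2 = c ∨ v 2 = c))) ∧
    ((u 2 = c ∨ v 2 = c) → ((u 0 = c ∨ v 0 = c) ↔ ¬ (u 1 = c ∨ v 1 = c))) := by
  have k : ∀ a b : Fin N, ¬ a = b →
      ((if a = c then 1 else 0) + (if b = c then 1 else 0) : ℕ) = if a = c ∨ b = c then 1 else 0 := by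
    intro a b hab
    by_cases h1 : a = c
    · have h2 : ¬ b = c := fun h2 => hab (h1.trans h2.symm)
      simp [h1, h2]
    · by_cases h2 : b = c <;> simp [h1, h2]
  unfold Ev at h
  rw [card3, card3] at h
  have e : (if u 0 = c then 1 else 0) + (if u 1 = c then 1 else 0) + (if u 2 = c then 1 else 0) +
      ((if v 0 = c then 1 else 0) + (if v 1 = c then 1 else 0) + (if v 2 = c then 1 else 0)) =
      ((if u 0 = c ∨ v 0 = c then 1 else 0) + (if u 1 = c ∨ v 1 = c then 1 else 0) +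
        (if u 2 = c ∨ v 2 = c then 1 else 0) : ℕ) := by
    rw [← k _ _ n0, ← k _ _ n1, ← k _ _ n2]
    ring
  rw [e] at h
  clear e
  by_cases h0 : (u 0 = c ∨ v 0 = c) <;> by_cases h1 : (u 1 = c ∨ v 1 = c) <;>
    by_cases h2 : (u 2 = c ∨ v 2 = c) <;> simp only [h0, h1, h2, if_true, if_false] at h ⊢ <;>
    tauto

theorem classify {N : ℕ} (Q : (Fin 3 → Fin N) → (Fin 3 → Fin N) → Prop)
    (hbase : ∀ x y z, x ≠ y → y ≠ z → z ≠ x → Q ![x, y, z] ![z, x, y])
    (hsw : ∀ u v i, Q (Function.update u i (v i)) (Function.update v i (u i)) → Q u v)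
    (hz1 : ∀ u v i, u i = v i → Q u v)
    (hz2 : ∀ u v c, ¬ Ev u v c → Q u v) : ∀ u v, Q u v := by
  -- swaps in coordinates
  have s0 : ∀ a0 a1 a2 b0 b1 b2, Q ![b0, a1, a2] ![a0, b1, b2] →
      Q ![a0, a1, a2] ![b0, b1, b2] := by
    intro a0 a1 a2 b0 b1 b2 h
    refine hsw _ _ 0 ?_
    convert h using 1 <;> (ext i; fin_cases i <;> simp)
  have s1 : ∀ a0 a1 a2 b0 b1 b2, Q ![a0, b1, a2] ![b0, a1, b2] →
      Q ![a0, a1, a2] ![b0, b1, b2] := by
    intro a0 a1 a2 b0 b1 b2 h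
    refine hsw _ _ 1 ?_
    convert h using 1 <;> (ext i; fin_cases i <;> simp)
  have s2 : ∀ a0 a1 a2 b0 b1 b2, Q ![a0, a1, b2] ![b0, b1, a2] →
      Q ![a0, a1, a2] ![b0, b1, b2] := by
    intro a0 a1 a2 b0 b1 b2 h
    refine hsw _ _ 2 ?_
    convert h using 1 <;> (ext i; fin_cases i <;> simp)
  -- the case `v 1 = u 0`, `u 2 = v 0`
  have c1 : ∀ a0 a1 a2 b0 b1 b2, b1 = a0 → a2 = b0 → Q ![a0, a1, a2] ![b0, b1, b2] := by
    intro a0 a1 a2 b0 b1 b2 h1 h2
    subst h1 h2
    by_cases n0 : b1 = a2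
    · exact hz1 _ _ 0 (by simpa using n0)
    by_cases n1 : a1 = b1
    · exact hz1 _ _ 1 (by simpa using n1)
    by_cases n2 : a2 = b2
    · exact hz1 _ _ 2 (by simpa using n2)
    by_cases hE : Ev ![b1, a1, a2] ![a2, b1, b2] a1
    swap
    · exact hz2 _ _ _ hE
    by_cases hE' : Ev ![b1, a1, a2] ![a2, b1, b2] a2
    swap
    · exact hz2 _ _ _ hE'
    by_cases e : b2 = a1
    · subst e
      exact hbase b1 b2 a2 (Ne.symm n1) (Ne.symm n2) (Ne.symm n0)
    · exfalso
      have n1' : ¬ b1 = a1 := fun h => n1 h.symm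
      have n2' : ¬ b2 = a2 := fun h => n2 h.symm
      unfold Ev at hE hE'
      rw [card3, card3] at hE hE'
      simp only [Matrix.cons_val_zero, Matrix.cons_val_one, Matrix.cons_val, n1', e, n0, n2',
        if_true, if_false] at hE hE'
      by_cases f : a2 = a1
      · simp only [f, if_true] at hE
        have f' : a1 = a2 := f.symm
        simp only [f', if_true] at hE'
        revert hE'
        decide
      · simp only [f, if_false] at hE
        revert hE
        decide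
  -- the case: the label `u 0` occurs in pair 1 and `v 0` in pair 2
  have c2 : ∀ a0 a1 a2 b0 b1 b2, (a1 = a0 ∨ b1 = a0) → (a2 = b0 ∨ b2 = b0) →
      Q ![a0, a1, a2] ![b0, b1, b2] := by
    intro a0 a1 a2 b0 b1 b2 h1 h2
    rcases h1 with h1 | h1 <;> rcases h2 with h2 | h2
    · exact s1 _ _ _ _ _ _ (c1 _ _ _ _ _ _ h1 h2)
    · exact s1 _ _ _ _ _ _ (s2 _ _ _ _ _ _ (c1 _ _ _ _ _ _ h1 h2))
    · exact c1 _ _ _ _ _ _ h1 h2
    · exact s2 _ _ _ _ _ _ (c1 _ _ _ _ _ _ h1 h2)
  intro u v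
  have hu : u = ![u 0, u 1, u 2] := by ext i; fin_cases i <;> simp
  have hv : v = ![v 0, v 1, v 2] := by ext i; fin_cases i <;> simp
  by_cases n0 : u 0 = v 0
  · exact hz1 _ _ 0 n0
  by_cases n1 : u 1 = v 1
  · exact hz1 _ _ 1 n1
  by_cases n2 : u 2 = v 2
  · exact hz1 _ _ 2 n2
  by_cases A1 : u 1 = u 0 ∨ v 1 = u 0
  · by_cases B2 : u 2 = v 0 ∨ v 2 = v 0
    · rw [hu, hv]; exact c2 _ _ _ _ _ _ A1 B2
    · by_cases E1 : Ev u v (v 0)
      swap
      · exact hz2 _ _ _ E1
      by_cases E2 : Ev u v (u 2)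
      swap
      · exact hz2 _ _ _ E2
      exfalso
      have k1 := (ev_imp u v _ n0 n1 n2 E1).1 (Or.inr rfl)
      have k2 := (ev_imp u v _ n0 n1 n2 E2).2.2 (Or.inl rfl)
      have k3 : u 1 = v 0 ∨ v 1 = v 0 := k1.2 B2
      rcases A1 with A | A <;> rcases k3 with B | B
      · exact n0 (A.symm.trans B)
      · rw [A, B] at k2
        tauto
      · rw [A, B] at k2
        tauto
      · exact n0 (A.symm.trans B)
  · by_cases E0 : Ev u v (u 0)
    swap
    · exact hz2 _ _ _ E0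
    by_cases E1 : Ev u v (v 0)
    swap
    · exact hz2 _ _ _ E1
    by_cases E2 : Ev u v (u 1)
    swap
    · exact hz2 _ _ _ E2
    have k0 := (ev_imp u v _ n0 n1 n2 E0).1 (Or.inl rfl)
    have k1 := (ev_imp u v _ n0 n1 n2 E1).1 (Or.inr rfl)
    have k2 := (ev_imp u v _ n0 n1 n2 E2).2.1 (Or.inl rfl)
    have A2 : u 2 = u 0 ∨ v 2 = u 0 := by
      by_contra h
      exact A1 (k0.2 h)
    by_cases B1 : u 1 = v 0 ∨ v 1 = v 0
    · rw [hu, hv]
      exact s0 _ _ _ _ _ _ (c2 _ _ _ _ _ _ B1 A2)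
    · have k3 : u 2 = v 0 ∨ v 2 = v 0 := by
        by_contra h
        exact B1 (k1.2 h)
      exfalso
      rcases A2 with A | A <;> rcases k3 with B | B
      · exact n0 (A.symm.trans B)
      · rw [A, B] at k2
        tauto
      · rw [A, B] at k2
        tauto
      · exact n0 (A.symm.trans B)

theorem good {N : ℕ} : ∃ κ : ((Fin 3 → Fin N) → (Fin 3 → Fin N) → ℤ) → ℤ,
    ∀ u v : Fin 3 → Fin N, ∃ s : ℤ, ∀ K : (Fin 3 → Fin N) → (Fin 3 → Fin N) → ℤ,
      (∀ u v i, K (Function.update u i (v i)) (Function.update v i (u i)) = - K u v) →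
      (∀ u v, K u v ≠ 0 → ∀ c, Even ((Finset.univ.filter fun i => u i = c).card +
        (Finset.univ.filter fun i => v i = c).card)) →
      (∀ (π : Equiv.Perm (Fin N)) (u v : Fin 3 → Fin N), K (π ∘ u) (π ∘ v) = K u v) →
      K u v = s * κ K := by
  classical
  by_cases hN : ∃ e : Fin 3 ↪ Fin N, True
  · obtain ⟨e, -⟩ := hN
    refine ⟨fun K => K ![e 0, e 1, e 2] ![e 2, e 0, e 1], ?_⟩
    refine classify _ ?_ ?_ ?_ ?_
    · intro x y z hxy hyz hzx
      refine ⟨1, fun K _ _ hp => ?_⟩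
      have hinj : Function.Injective ![x, y, z] := by
        intro i j hij
        fin_cases i <;> fin_cases j <;> simp_all
      have : MulAction.IsPretransitive (Equiv.Perm (Fin N)) (Fin 3 ↪ Fin N) :=
        Equiv.Perm.isMultiplyPretransitive (Fin N) 3
      obtain ⟨π, hπ⟩ := MulAction.exists_smul_eq (Equiv.Perm (Fin N)) e ⟨![x, y, z], hinj⟩
      have h0 : π (e 0) = x := by
        have := DFunLike.congr_fun hπ 0
        simpa using this
      have h1 : π (e 1) = y := by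
        have := DFunLike.congr_fun hπ 1
        simpa using this
      have h2 : π (e 2) = z := by
        have := DFunLike.congr_fun hπ 2
        simpa using this
      rw [one_mul]
      change K ![x, y, z] ![z, x, y] = K ![e 0, e 1, e 2] ![e 2, e 0, e 1]
      rw [← hp π ![e 0, e 1, e 2] ![e 2, e 0, e 1]]
      have e1 : π ∘ ![e 0, e 1, e 2] = ![x, y, z] := by
        funext i; fin_cases i <;> simp [h0, h1, h2]
      have e2 : π ∘ ![e 2, e 0, e 1] = ![z, x, y] := by
        funext i; fin_cases i <;> simp [h0, h1, h2]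
      rw [e1, e2]
    · rintro u v i ⟨s, hs⟩
      refine ⟨-s, fun K ha he hp => ?_⟩
      have h1 := hs K ha he hp
      rw [ha u v i] at h1
      linarith
    · intro u v i hi
      refine ⟨0, fun K ha he hp => ?_⟩
      have h1 := ha u v i
      rw [hi, Function.update_eq_self] at h1
      rw [← hi, Function.update_eq_self] at h1
      linarith
    · intro u v c hc
      refine ⟨0, fun K ha he hp => ?_⟩
      rw [zero_mul]
      by_contra h
      exact hc (he u v h c)
  · refine ⟨fun _ => 0, ?_⟩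
    refine classify _ ?_ ?_ ?_ ?_
    · intro x y z hxy hyz hzx
      exfalso
      refine hN ⟨⟨![x, y, z], ?_⟩, trivial⟩
      intro i j hij
      fin_cases i <;> fin_cases j <;> simp_all
    · rintro u v i ⟨s, hs⟩
      refine ⟨-s, fun K ha he hp => ?_⟩
      have h1 := hs K ha he hp
      rw [ha u v i] at h1
      linarith
    · intro u v i hi
      refine ⟨0, fun K ha he hp => ?_⟩
      have h1 := ha u v i
      rw [hi, Function.update_eq_self] at h1
      rw [← hi, Function.update_eq_self] at h1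
      linarith
    · intro u v c hc
      refine ⟨0, fun K ha he hp => ?_⟩
      rw [zero_mul]
      by_contra h
      exact hc (he u v h c)

theorem tri (N : ℕ) : ∃ τ : ((Fin 3 → Fin N) → (Fin 3 → Fin N) → ℤ) → ℤ,
    ∀ K : (Fin 3 → Fin N) → (Fin 3 → Fin N) → ℤ,
      (∀ u v i, K (Function.update u i (v i)) (Function.update v i (u i)) = - K u v) →
      (∀ u v, K u v ≠ 0 → ∀ c, Even ((Finset.univ.filter fun i => u i = c).card +
        (Finset.univ.filter fun i => v i = c).card)) →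
      (∀ (π : Equiv.Perm (Fin N)) (u v : Fin 3 → Fin N), K (π ∘ u) (π ∘ v) = K u v) →
      ∃ κ : ℤ, ∀ T : (Fin 3 → Fin N) → (Fin 3 → Fin N) → ℤ,
        ∑ u, ∑ v, K u v * T u v = κ * τ T := by
  obtain ⟨κ, hκ⟩ := good (N := N)
  choose s hs using hκ
  refine ⟨fun T => ∑ u, ∑ v, s u v * T u v, fun K ha he hp => ⟨κ K, fun T => ?_⟩⟩
  rw [Finset.mul_sum]
  refine Finset.sum_congr rfl fun u _ => ?_
  rw [Finset.mul_sum]
  refine Finset.sum_congr rfl fun v _ => ?_
  rw [hs u v K ha he hp]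
  ring

end Pool.Agent.Y47.PN
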